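import Pool.Agent.Helper54.SAW2.Main

set_option autoImplicit false

/-!
# The planar self-avoiding walk: `⟨‖γ_n‖²⟩ ≥ c n / (log n)³`

The statement has the form of frozen statement S19503, for `d = 2`, all `n ≥ 2`, and with
`n / (log n)³` in place of `n`.
-/

namespace Pool.Agent.Results.MP_993f2f_pr.PlanarDiffusive

/-- On `ℤ²` there is `c > 0` such that for every `n ≥ 2` the average, over all `n`-step
self-avoiding walks from the origin, of the squared Euclidean distance of the endpoint is at least
`c n / (log n)³`. -/
theorem result : ∃ c : ℝ, 0 < c ∧ ∀ n : ℕ, 2 ≤ n →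
    c * ((n : ℝ) / (Real.log n) ^ 3) ≤
      (∑ s ∈ Finset.univ.filter (fun s : Fin n → Fin 2 × Bool =>
            ∀ k l : Fin (n + 1),
              (fun i : Fin 2 => ∑ j : Fin n,
                  if j.val < k.val ∧ (s j).1 = i then (if (s j).2 then (1 : ℤ) else -1) else 0)
                = (fun i : Fin 2 => ∑ j : Fin n,
                  if j.val < l.val ∧ (s j).1 = i then (if (s j).2 then (1 : ℤ) else -1) else 0)
              → k = l),
          ∑ i : Fin 2,
            (∑ j : Fin n, if (s j).1 = i then (if (s j).2 then (1 : ℝ) else -1) else 0) ^ 2)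
        / ((Finset.univ.filter (fun s : Fin n → Fin 2 × Bool =>
            ∀ k l : Fin (n + 1),
              (fun i : Fin 2 => ∑ j : Fin n,
                  if j.val < k.val ∧ (s j).1 = i then (if (s j).2 then (1 : ℤ) else -1) else 0)
                = (fun i : Fin 2 => ∑ j : Fin n,
                  if j.val < l.val ∧ (s j).1 = i then (if (s j).2 then (1 : ℤ) else -1) else 0)
              → k = l)).card : ℝ) :=
  Pool.Agent.Helper54.SAW2.finalForm Pool.Agent.Helper54.SAW2.finalS

end Pool.Agent.Results.MP_993f2f_pr.PlanarDiffusive
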